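import Pool.Agent.H6.NK.Half1
import Pool.Agent.H6.NK.Half2

set_option autoImplicit false

/-!
# Nonstable K-theory: regular rings versus C*-algebras of real rank zero, for dimension groups

Neither inclusion holds even among positive cones of dimension groups (Q2, negated form).

First half. Let `e₀, …, e₁₈` be nineteen idempotents of rank one of the three by three matrices over
the field with two elements such that the graph given by orthogonality has no homomorphism to a
loopless graph without four-cycles. The ring consists of the locally constant functions `f` on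
`{0,1}^(19 × Ix)`, `Ix` a set of cardinality `ℵ₁₉`, with values in the three by three matrices such
that `f s` lies in the double commutant of the `e k`, `k` active at `s`, whenever these commute. In a
C*-algebra of real rank zero with the same monoid `V`, a free choice of indices would give nonzero
vectors in a three-dimensional Hilbert space that are orthogonal along the graph.

Second half. The C*-algebra is that of the earlier result; its monoid `V` is shown to be the positive
cone of a dimension group.
-/

universe u

open Pool.Agent.H494R3.NK Pool.Agent.H6.NK in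
/-- There are dimension groups `G₁`, `G₂` such that the positive cone of `G₁` is `V(R)` for a von
Neumann regular ring `R` but not `V(A)` for any C*-algebra `A` of real rank zero, and the positive
cone of `G₂` is `V(A)` for a C*-algebra `A` of real rank zero but not `V(R)` for any von Neumann
regular ring `R`. -/
theorem Pool.Agent.Results.MP_53c861_al.DimensionGroups.result :
    (∃ (G : Type) (_ : AddCommGroup G) (_ : PartialOrder G) (_ : IsOrderedAddMonoid G),
      IsDimensionGroup G ∧
      (∃ (R : Type) (_ : Ring R), (∀ x : R, ∃ y : R, x * y * x = x) ∧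
        Nonempty (AddSubmonoid.nonneg G ≃+ VV R)) ∧
      ∀ (A : Type u) [NonUnitalCStarAlgebra A], RealRankZero A →
        ¬ Nonempty (AddSubmonoid.nonneg G ≃+ VV A)) ∧
    ∃ (G : Type) (_ : AddCommGroup G) (_ : PartialOrder G) (_ : IsOrderedAddMonoid G),
      IsDimensionGroup G ∧
      (∃ (A : Type) (_ : CStarAlgebra A), RealRankZero A ∧
        Nonempty (AddSubmonoid.nonneg G ≃+ VV A)) ∧
      ∀ (R : Type u) [NonUnitalRing R], (∀ x : R, ∃ y : R, x * y * x = x) →
        ¬ Nonempty (AddSubmonoid.nonneg G ≃+ VV R) := by
  constructor
  · obtain ⟨G, i1, i2, i3, hG, ⟨e⟩⟩ := DimCone.exists_group (rg_dimCone (I := Ix))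
    refine ⟨G, i1, i2, i3, hG, ⟨Rg Ix, inferInstance, rg_regular, ⟨e⟩⟩, ?_⟩
    rintro A _ hA ⟨f⟩
    exact half1 A hA ⟨e.symm.trans f⟩
  · obtain ⟨F, hF, hR⟩ := half2.{u}
    obtain ⟨G, i1, i2, i3, hG, ⟨e⟩⟩ := DimCone.exists_group
      (alg_dimCone (F := F) (I := Pool.Agent.Y78.NK.Ind))
    refine ⟨G, i1, i2, i3, hG, ⟨Pool.Agent.Y78.NK.Alg F Pool.Agent.Y78.NK.Ind, inferInstance, hF,
      ⟨e⟩⟩, ?_⟩
    rintro R _ hreg ⟨f⟩
    exact hR R hreg ⟨e.symm.trans f⟩
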